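import Pool.Agent.H61.KV.TN

set_option autoImplicit false

namespace Pool.Agent.H19.KV.MNS

open Pool.Agent.H61.KV Pool.Agent.H59 Pool.Agent.H64.LB Pool.Agent.H61.KU

theorem pf_MNS (h : T_FCB) (h2 : T_RNK) (h3 : T_CNC) : T_MNS := by
  intro V _ _ _ m hm q hq hnot
  classical
  obtain ⟨hC, -, -, -, -, -, -, -⟩ := h3 V m hm
  obtain ⟨hqq, -, -, hqsub, -, -, -⟩ := h V (Cn m) q hC hq
  -- the minimal rank
  have hex : ∃ n : ℕ, ∃ q' ∈ Fc (Cn m) q, ¬ Fc (Cn m) q' ⊆ Mh m ∧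
      Module.finrank ℝ (Sp (Cn m) q') = n := ⟨_, q, hqq, hnot, rfl⟩
  obtain ⟨q', hq', hnot', hrk⟩ := Nat.find_spec hex
  have hmin : ∀ r ∈ Fc (Cn m) q, ¬ Fc (Cn m) r ⊆ Mh m →
      Module.finrank ℝ (Sp (Cn m) q') ≤ Module.finrank ℝ (Sp (Cn m) r) := by
    intro r hr hr'
    rw [hrk]
    exact Nat.find_min' hex ⟨r, hr, hr', rfl⟩
  obtain ⟨p, hp, hpM⟩ := Set.not_subset.1 hnot'
  have hq'C : q' ∈ Cn m := hq'.1
  have hpC : p ∈ Cn m := hp.1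
  have hpq : p ∈ Fc (Cn m) q := hqsub q' hq' hp
  have hpp : p ∈ Fc (Cn m) p := (h V (Cn m) p hC hpC).1
  have hle : Module.finrank ℝ (Sp (Cn m) p) ≤ Module.finrank ℝ (Sp (Cn m) q') :=
    Submodule.finrank_mono (h2 V (Cn m) q' p hC hq'C hp).1
  refine ⟨p, hpq, hpC, hpM, ?_⟩
  intro r hr
  rcases (h2 V (Cn m) p r hC hpC hr).2 with h4 | h4
  · exact Or.inl h4
  · right
    by_contra h5
    have h6 := hmin r ((h V (Cn m) q hC hq).2.2.2.1 p hpq hr) h5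
    omega

end Pool.Agent.H19.KV.MNS
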