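import Pool.Agent.H61.KV.TF
import Pool.Agent.H61.KV.TS

set_option autoImplicit false

/-!
# Kuiper board KV, row NFX: coordinates
-/

namespace Pool.Agent.H19.KV.NFX

open Pool.Agent.H61.KV Pool.Agent.H59 Pool.Agent.H64.LB Pool.Agent.H61.KU

/-- Coordinates adapted to a subspace of dimension 4 in the kernel of a functional. -/
lemma coords {V : Type} [NormedAddCommGroup V] [NormedSpace ℝ V] [FiniteDimensional ℝ V]
    (S : Submodule ℝ V) (κ : V →ₗ[ℝ] ℝ) (hV : Module.finrank ℝ V = 9)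
    (hS : Module.finrank ℝ S = 4) (hκ : κ ≠ 0) (hκS : ∀ v ∈ S, κ v = 0) :
    ∃ L : V ≃L[ℝ] F9, (∀ v, v ∈ S ↔ (L v).2 = 0) ∧ ∀ v, κ v = (L v).2.2 := by
  -- a complement of `S` in the kernel of `κ`
  have hSK : S ≤ LinearMap.ker κ := fun v hv => hκS v hv
  obtain ⟨Q, hQ⟩ := Submodule.exists_isCompl S
  set S' : Submodule ℝ V := Q ⊓ LinearMap.ker κ with hS'def
  have hsup : S ⊔ S' = LinearMap.ker κ := by
    rw [hS'def, ← sup_inf_assoc_of_le Q hSK, hQ.sup_eq_top, top_inf_eq]
  have hinf : S ⊓ S' = ⊥ := by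
    rw [eq_bot_iff]
    calc S ⊓ S' ≤ S ⊓ Q := inf_le_inf_left _ inf_le_left
      _ = ⊥ := hQ.inf_eq_bot
  have hrange : LinearMap.range κ = ⊤ := LinearMap.range_eq_top.2 (LinearMap.surjective hκ)
  have hK : Module.finrank ℝ (LinearMap.ker κ) = 8 := by
    have := LinearMap.finrank_range_add_finrank_ker κ
    rw [hrange, finrank_top, Module.finrank_self, hV] at this
    omega
  have hS' : Module.finrank ℝ S' = 4 := by
    have := Submodule.finrank_sup_add_finrank_inf_eq S S'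
    rw [hsup, hinf, hK, hS, finrank_bot] at this
    omega
  obtain ⟨w, hw⟩ : ∃ w, κ w = 1 := LinearMap.surjective hκ 1
  have hF4 : Module.finrank ℝ F4 = 4 := by simp
  let i : F4 ≃ₗ[ℝ] S := LinearEquiv.ofFinrankEq F4 S (by rw [hF4, hS])
  let j : F4 ≃ₗ[ℝ] S' := LinearEquiv.ofFinrankEq F4 S' (by rw [hF4, hS'])
  let f : F9 →ₗ[ℝ] V := (S.subtype ∘ₗ (i : F4 →ₗ[ℝ] S)) ∘ₗ LinearMap.fst ℝ F4 (F4 × ℝ) +
    (S'.subtype ∘ₗ (j : F4 →ₗ[ℝ] S')) ∘ₗ LinearMap.fst ℝ F4 ℝ ∘ₗ LinearMap.snd ℝ F4 (F4 × ℝ) +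
    (LinearMap.toSpanSingleton ℝ V w) ∘ₗ LinearMap.snd ℝ F4 ℝ ∘ₗ LinearMap.snd ℝ F4 (F4 × ℝ)
  have hf : ∀ a u r, f (a, u, r) = (i a : V) + (j u : V) + r • w := by
    intro a u r
    simp [f]
  have hκf : ∀ a u r, κ (f (a, u, r)) = r := by
    intro a u r
    rw [hf, map_add, map_add, map_smul, hw, hκS _ (i a).2, (j u).2.2]
    simp
  have hinj : Function.Injective f := by
    rw [injective_iff_map_eq_zero]
    rintro ⟨a, u, r⟩ h0
    have hr : r = 0 := by rw [← hκf a u r, h0, map_zero]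
    subst hr
    rw [hf, zero_smul, add_zero] at h0
    have hmem : (i a : V) ∈ S ⊓ S' := by
      refine ⟨(i a).2, ?_⟩
      rw [eq_neg_of_add_eq_zero_left h0]
      exact S'.neg_mem (j u).2
    rw [hinf, Submodule.mem_bot] at hmem
    have ha : a = 0 := by
      have : i a = 0 := Subtype.ext hmem
      simpa using this
    have hju : (j u : V) = 0 := by
      rw [hmem, zero_add] at h0
      exact h0
    have hu : u = 0 := by
      have : j u = 0 := Subtype.ext hju
      simpa using this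
    rw [ha, hu]
    rfl
  have hF9 : Module.finrank ℝ F9 = 9 := by
    rw [Module.finrank_prod, Module.finrank_prod, hF4, Module.finrank_self]
  let E : F9 ≃ₗ[ℝ] V := LinearEquiv.ofInjectiveOfFinrankEq f hinj (by rw [hF9, hV])
  have hE : ∀ x, E x = f x := fun x => rfl
  refine ⟨E.symm.toContinuousLinearEquiv, ?_, ?_⟩
  · intro v
    obtain ⟨⟨a, u, r⟩, rfl⟩ := E.surjective v
    have h1 : E.symm.toContinuousLinearEquiv (E (a, u, r)) = (a, u, r) := E.symm_apply_apply _
    rw [h1, hE]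
    constructor
    · intro hv
      have hr : r = 0 := by rw [← hκf a u r, hκS _ hv]
      subst hr
      rw [hf, zero_smul, add_zero] at hv
      have hju : (j u : V) ∈ S := by
        have := S.sub_mem hv (i a).2
        rwa [add_sub_cancel_left] at this
      have hmem : (j u : V) ∈ S ⊓ S' := ⟨hju, (j u).2⟩
      rw [hinf, Submodule.mem_bot] at hmem
      have hu : u = 0 := by
        have : j u = 0 := Subtype.ext hmem
        simpa using this
      rw [hu]
      rfl
    · intro h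
      have hu : u = 0 := congrArg Prod.fst h
      have hr : r = 0 := congrArg Prod.snd h
      rw [hf, hu, hr, map_zero, zero_smul, add_zero]
      simp
  · intro v
    obtain ⟨⟨a, u, r⟩, rfl⟩ := E.surjective v
    have h1 : E.symm.toContinuousLinearEquiv (E (a, u, r)) = (a, u, r) := E.symm_apply_apply _
    rw [h1, hE, hκf]

theorem pf_NFX (h1 : T_FCB) (h2 : T_CNC) (h3 : T_TRA) (h4 : T_ST) (h5 : T_STM) (h6 : T_STJ)
    (h7 : T_FTU) (h8 : T_P1N) (h9 : T_MAX) (h10 : T_MIT) (h11 : T_HLF) (h12 : T_HSC)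
    (h13 : T_EXP) : T_NFX := by
  intro V _ _ _ m hm hns
  obtain ⟨p, κ, hp, hκ0, hκC, hκp, hκu⟩ := h11 V m hm hns
  obtain ⟨hCm, hspan, -, -, -, -, -, -⟩ := h2 V m hm
  have hκS : ∀ v ∈ Sp (Cn m) p, κ v = 0 := h13 V (Cn m) p κ hκC hκp
  obtain ⟨L, hLS, hLκ⟩ := coords (Sp (Cn m) p) κ hm.rank (h8 V m hm p hp).1 hκ0 hκS
  obtain ⟨t1, t2, t3, t4, t5, t6, t7⟩ := h3 V F9 m L
  have hm' := t1 hm
  have hns' := t2 hns
  have hp' := (t7 p).2 hp
  set m' : PN 2 → F9 := fun x => L (m x) with hm'def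
  obtain ⟨hC, -, hmC, -, hMC, -, hMs, -⟩ := h2 F9 m' hm'
  set C : Set F9 := Cn m' with hCdef
  -- the point
  have hpS : p ∈ Sp (Cn m) p := Submodule.subset_span (h1 V (Cn m) p hCm hp.1).1
  have hLp2 : (L p).2 = 0 := (hLS p).1 hpS
  obtain ⟨a₀, ha₀⟩ : ∃ a₀ : F4, L p = (a₀, 0, 0) := ⟨(L p).1, Prod.ext rfl hLp2⟩
  rw [ha₀] at hp'
  have hSp : ∀ v : F9, v ∈ Sp C (a₀, 0, 0) ↔ v.2 = 0 := by
    intro v
    obtain ⟨v, rfl⟩ := L.surjective v
    rw [← ha₀, t6 p v, hLS]
  have hp'C : ((a₀, 0, 0) : F9) ∈ C := hp'.1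
  obtain ⟨f1, f2, f3, f4, f5, f6, -⟩ := h1 F9 C (a₀, 0, 0) hC hp'C
  set T : Set F4 := {a | ((a, 0, 0) : F9) ∈ C} with hT
  have hFc : ∀ v : F9, v ∈ Fc C (a₀, 0, 0) ↔ v.1 ∈ T ∧ v.2 = 0 := by
    rintro ⟨a, b⟩
    constructor
    · intro hv
      have hb : b = 0 := (hSp (a, b)).1 (Submodule.subset_span hv)
      refine ⟨?_, hb⟩
      rw [hb] at hv
      exact hv.1
    · rintro ⟨hv1, hv2⟩
      have hb : b = 0 := hv2
      rw [hb]
      exact f5 _ hv1 ((hSp _).2 rfl)
  have hTadd : ∀ s ∈ T, ∀ t ∈ T, s + t ∈ T := by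
    intro s hs t ht
    have := hC.add _ hs _ ht
    simpa [hT] using this
  have hTsmul : ∀ c : ℝ, 0 ≤ c → ∀ s ∈ T, c • s ∈ T := by
    intro c hc s hs
    have := hC.smul c hc _ hs
    simpa [hT] using this
  have hTconv : Convex ℝ T := by
    intro x hx y hy a b ha hb _
    exact hTadd _ (hTsmul a ha x hx) _ (hTsmul b hb y hy)
  have ha₀T : a₀ ∈ T := hp'C
  have hdir : ∀ v : F4, ∃ ε : ℝ, 0 < ε ∧ a₀ + ε • v ∈ T := by
    intro v
    obtain ⟨ε, hε, h⟩ := f6 (v, 0, 0) ((hSp _).2 rfl)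
    refine ⟨ε, hε, ?_⟩
    have := ((hFc _).1 (h ε hε.le le_rfl)).1
    simpa using this
  have ha₀i : a₀ ∈ interior T := by
    have hne : (interior T).Nonempty := by
      rw [hTconv.interior_nonempty_iff_affineSpan_eq_top]
      have hnon : ((affineSpan ℝ T : AffineSubspace ℝ F4) : Set F4).Nonempty :=
        ⟨a₀, mem_affineSpan ℝ ha₀T⟩
      rw [← AffineSubspace.direction_eq_top_iff_of_nonempty hnon, Submodule.eq_top_iff']
      intro v
      obtain ⟨ε, hε, h⟩ := hdir v
      have h' := AffineSubspace.vsub_mem_direction (mem_affineSpan ℝ h) (mem_affineSpan ℝ ha₀T)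
      rw [vsub_eq_sub, add_sub_cancel_left] at h'
      have h'' := Submodule.smul_mem _ ε⁻¹ h'
      rwa [smul_smul, inv_mul_cancel₀ hε.ne', one_smul] at h''
    obtain ⟨b, hb⟩ := hne
    obtain ⟨ε, hε, h⟩ := hdir (a₀ - b)
    apply hTconv.openSegment_interior_self_subset_interior hb h
    have h1ε : (0 : ℝ) < 1 + ε := by linarith
    refine ⟨ε / (1 + ε), 1 / (1 + ε), by positivity, by positivity, by field_simp; ring, ?_⟩
    have e1 : (1 / (1 + ε)) • (a₀ + ε • (a₀ - b)) =
        a₀ - (ε / (1 + ε)) • b := by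
      have e2 : a₀ + ε • (a₀ - b) = (1 + ε) • a₀ - ε • b := by
        rw [smul_sub, add_smul, one_smul]; abel
      rw [e2, smul_sub, smul_smul, smul_smul]
      congr 1
      · rw [one_div, inv_mul_cancel₀ h1ε.ne', one_smul]
      · congr 1
        ring
    rw [e1]
    abel
  -- the last coordinate is nonnegative on the cone
  have hr0 : ∀ v ∈ C, 0 ≤ v.2.2 := by
    intro v hv
    obtain ⟨q, rfl⟩ := L.surjective v
    rw [← hLκ]
    exact hκC q ((t3 q).1 hv)
  -- the feet
  have hfoot : ∀ u : F4, ∃ gu : F4, Foot C (a₀, 0, 0) (gu, u, 1) (gu, u, 1) := by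
    intro u
    obtain ⟨v, hv⟩ := L.surjective ((0, u, 1) : F9)
    obtain ⟨s, hs, hvs⟩ := h12 V (Cn m) p κ hCm hspan hp.1 ⟨hκ0, hκC, hκp, hκu⟩ v (by
      rw [hLκ, hv]; exact one_pos)
    have hq : L (v + s) ∈ C := (t3 _).2 hvs
    obtain ⟨γ, hγ⟩ := h4 F9 m' hm' (a₀, 0, 0) hp' _ hq
    obtain ⟨g1, g2, g3⟩ := (h7 F9 C (a₀, 0, 0) hC hp'C).1 _ _ hγ
    have h5' : γ.2 = (u, 1) := by
      have h6' := (hSp _).1 g2
      have h7' : (L (v + s)).2 = (u, 1) := by
        rw [map_add, Prod.snd_add, (hLS s).1 hs, hv, add_zero]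
      rw [Prod.snd_sub, h7', sub_eq_zero] at h6'
      exact h6'
    refine ⟨γ.1, ?_⟩
    have h8' : γ = (γ.1, u, 1) := Prod.ext rfl h5'
    rw [← h8']
    exact g3
  choose g hg using hfoot
  have hone : ∀ a u : F4, ((a, u, 1) : F9) ∈ C ↔ a - g u ∈ T := by
    intro a u
    have hd : ((a, u, 1) : F9) - (g u, u, 1) = (a - g u, 0, 0) := by
      ext <;> simp
    have h := hg u (a, u, 1)
    rw [hd, hFc] at h
    constructor
    · intro h'
      exact (h.1 ⟨h', (hSp _).2 rfl⟩).1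
    · intro h'
      exact (h.2 ⟨h', rfl⟩).1
  have hscale : ∀ (r : ℝ) (a u : F4), 0 < r →
      (((a, u, r) : F9) ∈ C ↔ a - r • g (r⁻¹ • u) ∈ T) := by
    intro r a u hr
    have e1 : r⁻¹ • ((a, u, r) : F9) = (r⁻¹ • a, r⁻¹ • u, 1) := by
      simp [inv_mul_cancel₀ hr.ne']
    have e2 : ((a, u, r) : F9) = r • ((r⁻¹ • a, r⁻¹ • u, 1) : F9) := by
      rw [← e1, smul_smul, mul_inv_cancel₀ hr.ne', one_smul]
    have e3 : r • (r⁻¹ • a - g (r⁻¹ • u)) = a - r • g (r⁻¹ • u) := by
      rw [smul_sub, smul_smul, mul_inv_cancel₀ hr.ne', one_smul]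
    constructor
    · intro h
      have h' := hC.smul r⁻¹ (inv_nonneg.2 hr.le) _ h
      rw [e1, hone] at h'
      rw [← e3]
      exact hTsmul r hr.le _ h'
    · intro h
      rw [e2]
      apply hC.smul r hr.le
      rw [hone]
      have h' := hTsmul r⁻¹ (inv_nonneg.2 hr.le) _ h
      rwa [← e3, smul_smul, inv_mul_cancel₀ hr.ne', one_smul] at h'
  -- points of the cone with last coordinate zero
  have hzero : ∀ a u : F4, ((a, u, 0) : F9) ∈ C → u = 0 ∧ a ∈ T := by
    intro a u h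
    by_contra hcon
    have hnF : ((a, u, 0) : F9) ∉ Fc C (a₀, 0, 0) := by
      intro hF
      obtain ⟨h', h''⟩ := (hFc _).1 hF
      exact hcon ⟨congrArg Prod.fst h'', h'⟩
    have hov := h9 F9 m' hm' hns' (a₀, 0, 0) hp' _ h hnF
    have h0 := hov (LinearMap.snd ℝ F4 ℝ ∘ₗ LinearMap.snd ℝ F4 (F4 × ℝ)) (fun r hr => hr0 r hr)
      rfl rfl
    have h0' := LinearMap.congr_fun h0 ((0, 0, 1) : F9)
    simp at h0'
  refine ⟨L, T, g, hm', hns', ⟨a₀, ha₀i, hp'⟩, ?_, ?_⟩
  · intro a u r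
    constructor
    · intro h
      rcases (hr0 _ h).lt_or_eq with hr | hr
      · exact Or.inl ⟨hr, (hscale r a u hr).1 h⟩
      · have hr' : r = 0 := hr.symm
        subst hr'
        exact Or.inr ⟨rfl, hzero a u h⟩
    · rintro (⟨hr, h⟩ | ⟨hr, hu, ha⟩)
      · exact (hscale r a u hr).2 h
      · rw [hr, hu]
        exact ha
  · intro a u r
    have hE : ∀ r : ℝ, 0 < r → r • ((g (r⁻¹ • u), r⁻¹ • u, 1) : F9) = (r • g (r⁻¹ • u), u, r) := by
      intro r hr
      simp [smul_smul, mul_inv_cancel₀ hr.ne']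
    constructor
    · intro h
      have hqC : ((a, u, r) : F9) ∈ C := hMC h
      rcases (hr0 _ hqC).lt_or_eq with hr | hr
      · left
        refine ⟨hr, ?_⟩
        have hr' : 0 < r := hr
        have hnF : ((a, u, r) : F9) ∉ Fc C (a₀, 0, 0) := by
          intro hF
          have h'' := ((hFc _).1 hF).2
          exact hr'.ne' (congrArg Prod.snd h'')
        have hov := h9 F9 m' hm' hns' (a₀, 0, 0) hp' _ hqC hnF
        have hft := h6 F9 m' hm' (a₀, 0, 0) hp' _ h hov
        obtain ⟨-, -, w3, w4⟩ := h7 F9 C (a₀, 0, 0) hC hp'C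
        have hft2 := w4 _ _ r hr' (hg (r⁻¹ • u))
        rw [hE r hr'] at hft2
        have heq := w3 _ _ _ _ (by
          rw [hSp]
          simp) hft hft2
        exact congrArg Prod.fst heq
      · have hr' : r = 0 := hr.symm
        subst hr'
        obtain ⟨hu, ha⟩ := hzero a u hqC
        refine Or.inr ⟨rfl, hu, ha, ?_⟩
        intro hai
        subst hu
        have hqF : ((a, 0, 0) : F9) ∈ Fc C (a₀, 0, 0) := (hFc _).2 ⟨ha, rfl⟩
        apply h10 F9 m' hm' hns' (a₀, 0, 0) hp' _ hqF h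
        refine ⟨hp'C, ?_⟩
        obtain ⟨ε, hε, hball⟩ := Metric.isOpen_iff.1 isOpen_interior a hai
        set δ : ℝ := ε / (2 * (‖a₀‖ + 1)) with hδ
        have hn : 0 < ‖a₀‖ + 1 := by positivity
        have hδp : 0 < δ := by positivity
        have hmem : a - δ • a₀ ∈ T := by
          apply interior_subset
          apply hball
          rw [Metric.mem_ball, dist_eq_norm]
          have e1 : a - δ • a₀ - a = -(δ • a₀) := by abel
          rw [e1, norm_neg, norm_smul, Real.norm_of_nonneg hδp.le]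
          have e2 : δ * ‖a₀‖ ≤ δ * (‖a₀‖ + 1) := by nlinarith
          have e3 : δ * (‖a₀‖ + 1) = ε / 2 := by
            rw [hδ]; field_simp
          linarith
        refine ⟨δ⁻¹, inv_nonneg.2 hδp.le, ?_⟩
        have h' := hTsmul δ⁻¹ (inv_nonneg.2 hδp.le) _ hmem
        rw [smul_sub, smul_smul, inv_mul_cancel₀ hδp.ne', one_smul] at h'
        have e4 : δ⁻¹ • ((a, 0, 0) : F9) - (a₀, 0, 0) = (δ⁻¹ • a - a₀, 0, 0) := by
          ext <;> simp
        rw [e4]
        exact h'
    · rintro (⟨hr, ha⟩ | ⟨hr, hu, ha, hai⟩)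
      · have h' := (h5 F9 m' hm' (a₀, 0, 0) hp' _ _ (hg (r⁻¹ • u))).2.1
        have h'' := hMs r hr.le _ h'
        rw [hE r hr] at h''
        rw [ha]
        exact h''
      · subst hr
        subst hu
        have hqF : ((a, 0, 0) : F9) ∈ Fc C (a₀, 0, 0) := (hFc _).2 ⟨ha, rfl⟩
        rcases hp'.2.2 _ hqF with h' | h'
        · exfalso
          obtain ⟨-, c, hc, hcC⟩ := h'
          have e4 : c • ((a, 0, 0) : F9) - (a₀, 0, 0) = (c • a - a₀, 0, 0) := by
            ext <;> simp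
          rw [e4] at hcC
          have hcT : c • a - a₀ ∈ T := hcC
          have hp0 : ((a₀, 0, 0) : F9) ≠ 0 := by
            intro h0
            apply hp'.2.1
            rw [h0]
            obtain ⟨x⟩ : Nonempty (PN 2) := by
              by_contra hemp
              rw [not_nonempty_iff] at hemp
              have hsp := hm.span
              rw [Set.range_eq_empty, Submodule.span_empty] at hsp
              have hfr : Module.finrank ℝ V = 0 := by
                rw [← finrank_top ℝ V, ← hsp, finrank_bot]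
              rw [hm.rank] at hfr
              omega
            exact ⟨0, x, le_rfl, by rw [zero_smul]⟩
          have hc0 : c ≠ 0 := by
            rintro rfl
            rw [zero_smul, zero_sub] at hcT
            obtain ⟨e, he⟩ := hC.pos
            have h8' := he _ hp'C hp0
            have hneg : (-(a₀, 0, 0) : F9) ∈ C := by
              have : (-(a₀, 0, 0) : F9) = (-a₀, 0, 0) := by ext <;> simp
              rw [this]
              exact hcT
            have h9' := he _ hneg (neg_ne_zero.2 hp0)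
            rw [map_neg] at h9'
            linarith
          have hcp : 0 < c := lt_of_le_of_ne hc hc0.symm
          apply hai
          rw [mem_interior]
          refine ⟨{y | c • y - (c • a - a₀) ∈ interior T}, ?_, ?_, ?_⟩
          · intro y hy
            have h8' := hTadd _ (interior_subset hy) _ hcT
            rw [sub_add_cancel] at h8'
            have h9' := hTsmul c⁻¹ (inv_nonneg.2 hc) _ h8'
            rwa [smul_smul, inv_mul_cancel₀ hc0, one_smul] at h9'
          · apply isOpen_interior.preimage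
            fun_prop
          · change c • a - (c • a - a₀) ∈ interior T
            rw [sub_sub_cancel]
            exact ha₀i
        · exact h' (h1 F9 C (a, 0, 0) hC ha).1

end Pool.Agent.H19.KV.NFX
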