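import Pool.Agent.H61.KV.TG

set_option autoImplicit false

namespace Pool.Agent.H19.KV.SPX

open Pool.Agent.H61.KV

theorem pf_SPX (h : T_FCB) (h2 : T_FTU) : T_SPX := by
  intro V _ _ _ C p p' t hC hp hp' hfoot hcom v hv hv'
  obtain ⟨f1, f2, f3, f4, f5, f6, -⟩ := h V C p' hC hp'
  obtain ⟨u1, u2, u3, -⟩ := h2 V C p hC hp
  -- `v` is a difference of points of the face
  obtain ⟨ε, hε, hεv⟩ := f6 v hv'
  have ha : ε⁻¹ • (p' + ε • v) ∈ Fc C p' :=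
    f2.smul _ (inv_nonneg.2 hε.le) _ (hεv ε hε.le le_rfl)
  have hb : ε⁻¹ • p' ∈ Fc C p' := f2.smul _ (inv_nonneg.2 hε.le) _ f1
  have hab : ε⁻¹ • (p' + ε • v) - ε⁻¹ • p' = v := by
    rw [smul_add, smul_smul, inv_mul_cancel₀ hε.ne', one_smul]
    abel
  set a : V := ε⁻¹ • (p' + ε • v) with hadef
  set b : V := ε⁻¹ • p' with hbdef
  have haC : a ∈ C := ha.1
  have hbC : b ∈ C := hb.1
  obtain ⟨g, hg⟩ := hfoot a haC
  obtain ⟨g', hg'⟩ := hfoot b hbC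
  have hgg : g = g' := u3 a b g g' (by rw [hab]; exact hv) hg hg'
  subst hgg
  have key : ∀ x ∈ Fc C p', Foot C p x g → ∃ c : ℝ, x - g = c • t := by
    intro x hx hxg
    have h1 : x - g ∈ Fc C p := u2 x g hx.1 hxg
    have h3 : g ∈ C := (u1 x g hxg).1
    have h4 : x - g ∈ Fc C p' := (f3 g h3 (x - g) h1.1 (by
      rw [add_sub_cancel]; exact hx)).2
    exact hcom _ h1 h4
  obtain ⟨c, hc⟩ := key a ha hg
  obtain ⟨c', hc'⟩ := key b hb hg'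
  refine ⟨c - c', ?_⟩
  rw [sub_smul, ← hc, ← hc', ← hab]
  abel

end Pool.Agent.H19.KV.SPX
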