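import Pool.Agent.H61.KV.TE

set_option autoImplicit false

namespace Pool.Agent.H19.KV.UNI

open Pool.Agent.H61.KV Pool.Agent.H59 Pool.Agent.H64.LB Pool.Agent.H61.KU

theorem pf_UNI (h1 : T_FCB) (h2 : T_CNC) (h3 : T_B2N) (h4 : T_EBD) : T_UNI := by
  intro V _ _ _ m hm hns p p' hp hp' hne
  obtain ⟨hC, -, -, -, -, -, -, -⟩ := h2 V m hm
  obtain ⟨t, ht0, ht, ht'⟩ := h3 V m hm p p' hp hp'
  obtain ⟨e, he⟩ := hC.pos
  have hpC := hp.1
  have hp'C := hp'.1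
  obtain ⟨hpp, hF, -, -, -, -, -⟩ := h1 V (Cn m) p hC hpC
  obtain ⟨-, hF', -, hsub', -, -, -⟩ := h1 V (Cn m) p' hC hp'C
  refine ⟨t, ht0, ht, ht', ?_⟩
  intro r hr hr'
  have htr : t + r ∈ Fc (Cn m) p := hF.add t ht r hr
  have htr' : t + r ∈ Fc (Cn m) p' := hF'.add t ht' r hr'
  have hpn : p ∉ Fc (Cn m) (t + r) := by
    intro h
    have hpp' : p ∈ Fc (Cn m) p' := hsub' _ htr' h
    rcases hp'.2.2 p hpp' with h5 | h5
    · exact hne h5
    · exact hp.2.1 (h5 hpp)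
  have hn0 : t + r ≠ 0 := by
    intro h
    have h5 : 0 < e t := he t ht.1 ht0
    have h6 : 0 ≤ e r := by
      by_cases hr0 : r = 0
      · rw [hr0, map_zero]
      · exact (he r hr.1 hr0).le
    have h7 : e (t + r) = 0 := by rw [h, map_zero]
    rw [map_add] at h7
    linarith
  obtain ⟨-, -, hray⟩ := h4 V m hm hns p (t + r) hp ⟨htr, hn0, hpn⟩
  obtain ⟨g1, -, g3, -, -, -, -⟩ := h1 V (Cn m) (t + r) hC htr.1
  obtain ⟨gt, gr⟩ := g3 t ht.1 r hr.1 g1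
  obtain ⟨c, hc⟩ := hray r gr
  obtain ⟨c', hc'⟩ := hray t gt
  have hc0 : c' ≠ 0 := by
    intro h
    rw [h, zero_smul] at hc'
    exact ht0 hc'
  refine ⟨c / c', ?_⟩
  have h8 : t + r = c'⁻¹ • t := by
    rw [eq_inv_smul_iff₀ hc0]
    exact hc'.symm
  calc r = c • (t + r) := hc
    _ = c • (c'⁻¹ • t) := by rw [h8]
    _ = (c / c') • t := by rw [smul_smul, div_eq_mul_inv]

end Pool.Agent.H19.KV.UNI
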